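import Pool.Agent.Helper31.LW.Goals
import Pool.Agent.Helper9.FR.PL

/-!
# Project LW (MP_6fb600_gt), packet LW-PLE: the Prékopa–Leindler inequality for bounded functions
-/

set_option autoImplicit false

open MeasureTheory Set Filter Topology
open scoped ENNReal

namespace Pool.Agent.Helper13.LW

/-- The cube. -/
def cube (m : ℕ) (k : ℕ) : Set (Fin m → ℝ) := {x | ∀ i, |x i| ≤ (k : ℝ)}

theorem cube_meas (m k : ℕ) : MeasurableSet (cube m k) := by
  have h : cube m k = ⋂ i : Fin m, {x : Fin m → ℝ | |x i| ≤ (k : ℝ)} := by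
    ext x
    simp [cube]
  rw [h]
  refine MeasurableSet.iInter fun i => ?_
  exact measurableSet_le ((measurable_pi_apply i).abs) measurable_const

theorem cube_mono (m : ℕ) {k l : ℕ} (h : k ≤ l) : cube m k ⊆ cube m l := by
  intro x hx i
  exact (hx i).trans (by exact_mod_cast h)

theorem cube_conv (m k : ℕ) {x y : Fin m → ℝ} {t : ℝ} (ht0 : 0 < t) (ht1 : t < 1)
    (hx : x ∈ cube m k) (hy : y ∈ cube m k) :
    (fun i => (1 - t) * x i + t * y i) ∈ cube m k := by
  intro i
  have h1 := abs_le.1 (hx i)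
  have h2 := abs_le.1 (hy i)
  rw [abs_le]
  constructor
  · nlinarith
  · nlinarith

theorem mem_cube_of (m : ℕ) (x : Fin m → ℝ) : ∃ K : ℕ, ∀ k, K ≤ k → x ∈ cube m k := by
  obtain ⟨K, hK⟩ := exists_nat_ge (∑ i, |x i|)
  refine ⟨K, fun k hk i => ?_⟩
  have h1 : |x i| ≤ ∑ i, |x i| :=
    Finset.single_le_sum (f := fun i => |x i|) (fun j _ => abs_nonneg _) (Finset.mem_univ i)
  have h2 : (K : ℝ) ≤ k := by exact_mod_cast hk
  linarith

/-- Monotone convergence over the cubes. -/
theorem tends (m : ℕ) (f : (Fin m → ℝ) → ℝ) (hf : Measurable f) :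
    Tendsto (fun k : ℕ => ∫⁻ x, ENNReal.ofReal ((cube m k).indicator f x)) atTop
      (𝓝 (∫⁻ x, ENNReal.ofReal (f x))) := by
  have e : ∀ (k : ℕ) (x : Fin m → ℝ), ENNReal.ofReal ((cube m k).indicator f x)
      = (cube m k).indicator (fun x => ENNReal.ofReal (f x)) x := by
    intro k x
    by_cases hx : x ∈ cube m k
    · rw [indicator_of_mem hx, indicator_of_mem hx]
    · rw [indicator_of_notMem hx, indicator_of_notMem hx, ENNReal.ofReal_zero]
  refine lintegral_tendsto_of_tendsto_of_monotone ?_ ?_ ?_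
  · intro k
    exact ((hf.indicator (cube_meas m k)).ennreal_ofReal).aemeasurable
  · refine Eventually.of_forall fun x k l hkl => ?_
    show ENNReal.ofReal ((cube m k).indicator f x) ≤ ENNReal.ofReal ((cube m l).indicator f x)
    rw [e, e]
    by_cases hx : x ∈ cube m k
    · rw [indicator_of_mem hx, indicator_of_mem (cube_mono m hkl hx)]
    · rw [indicator_of_notMem hx]
      exact zero_le
  · refine Eventually.of_forall fun x => ?_
    obtain ⟨K, hK⟩ := mem_cube_of m x
    refine tendsto_const_nhds.congr' ?_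
    filter_upwards [eventually_ge_atTop K] with k hk
    rw [indicator_of_mem (hK k hk)]

theorem trunc (m : ℕ) (f g h : (Fin m → ℝ) → ℝ) (t C : ℝ) (ht0 : 0 < t) (ht1 : t < 1)
    (hf : Measurable f) (hg : Measurable g) (hh : Measurable h)
    (hf1 : ∀ x, 0 ≤ f x ∧ f x ≤ C) (hg1 : ∀ x, 0 ≤ g x ∧ g x ≤ C) (hh1 : ∀ x, 0 ≤ h x ∧ h x ≤ C)
    (hfg : ∀ x y, f x ^ (1 - t) * g y ^ t ≤ h (fun i => (1 - t) * x i + t * y i)) (k : ℕ) :
    (∫⁻ x, ENNReal.ofReal ((cube m k).indicator f x)) ^ (1 - t) *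
      (∫⁻ x, ENNReal.ofReal ((cube m k).indicator g x)) ^ t ≤ ∫⁻ x, ENNReal.ofReal (h x) := by
  have hC : 0 ≤ C := (hf1 0).1.trans (hf1 0).2
  have bnd : ∀ u : (Fin m → ℝ) → ℝ, (∀ x, 0 ≤ u x ∧ u x ≤ C) →
      ∀ x, 0 ≤ (cube m k).indicator u x ∧ (cube m k).indicator u x ≤ C := by
    intro u hu x
    by_cases hx : x ∈ cube m k
    · rw [indicator_of_mem hx]; exact hu x
    · rw [indicator_of_notMem hx]; exact ⟨le_rfl, hC⟩
  have out : ∀ (u : (Fin m → ℝ) → ℝ) (x : Fin m → ℝ), (∃ i, (k : ℝ) < |x i|) →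
      (cube m k).indicator u x = 0 := by
    intro u x ⟨i, hi⟩
    refine indicator_of_notMem ?_ u
    intro hx
    exact absurd (hx i) (not_le.2 hi)
  have intg : ∀ u : (Fin m → ℝ) → ℝ, Measurable u → (∀ x, 0 ≤ u x ∧ u x ≤ C) →
      Integrable ((cube m k).indicator u) := by
    intro u hu hu1
    exact Pool.Agent.Helper9.FR.bd_integrable (R := k) (C := C) (hu.indicator (cube_meas m k))
      (fun x => (bnd u hu1 x).1) (fun x => (bnd u hu1 x).2) (fun x hx => out u x hx)
  have key := Pool.Agent.Helper9.FR.pl_all m ((cube m k).indicator f) ((cube m k).indicator g)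
    ((cube m k).indicator h) t k C ht0 ht1 (hf.indicator (cube_meas m k))
    (hg.indicator (cube_meas m k)) (hh.indicator (cube_meas m k)) (bnd f hf1) (bnd g hg1)
    (bnd h hh1) (fun x hx => ⟨out f x hx, out g x hx, out h x hx⟩) (by
      intro x y
      by_cases hx : x ∈ cube m k
      · by_cases hy : y ∈ cube m k
        · rw [indicator_of_mem hx, indicator_of_mem hy,
            indicator_of_mem (cube_conv m k ht0 ht1 hx hy)]
          exact hfg x y
        · rw [indicator_of_notMem hy, Real.zero_rpow ht0.ne', mul_zero]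
          exact (bnd h hh1 _).1
      · rw [indicator_of_notMem hx, Real.zero_rpow (by linarith : (1 - t) ≠ 0), zero_mul]
        exact (bnd h hh1 _).1)
  have key2 := ENNReal.ofReal_le_ofReal key
  have nf : 0 ≤ ∫ x, (cube m k).indicator f x := integral_nonneg fun x => (bnd f hf1 x).1
  have ng : 0 ≤ ∫ x, (cube m k).indicator g x := integral_nonneg fun x => (bnd g hg1 x).1
  rw [ENNReal.ofReal_mul (Real.rpow_nonneg nf _),
    ← ENNReal.ofReal_rpow_of_nonneg nf (by linarith), ← ENNReal.ofReal_rpow_of_nonneg ng ht0.le,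
    ofReal_integral_eq_lintegral_ofReal (intg f hf hf1) (Eventually.of_forall fun x => (bnd f hf1 x).1),
    ofReal_integral_eq_lintegral_ofReal (intg g hg hg1) (Eventually.of_forall fun x => (bnd g hg1 x).1),
    ofReal_integral_eq_lintegral_ofReal (intg h hh hh1) (Eventually.of_forall fun x => (bnd h hh1 x).1)]
    at key2
  refine key2.trans (lintegral_mono fun x => ENNReal.ofReal_le_ofReal ?_)
  by_cases hx : x ∈ cube m k
  · rw [indicator_of_mem hx]
  · rw [indicator_of_notMem hx]; exact (hh1 x).1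

/-- Packet LW-PLE. -/
theorem gPLE : Pool.Agent.Helper31.LW.PLE := by
  intro m f g h t C ht0 ht1 hf hg hh hf1 hg1 hh1 hfg
  have ht2 : 0 < 1 - t := by linarith
  by_cases hA : ∫⁻ x, ENNReal.ofReal (f x) = 0
  · rw [hA, ENNReal.zero_rpow_of_pos ht2, zero_mul]
    exact zero_le
  by_cases hB : ∫⁻ x, ENNReal.ofReal (g x) = 0
  · rw [hB, ENNReal.zero_rpow_of_pos ht0, mul_zero]
    exact zero_le
  have h1 := (ENNReal.continuous_rpow_const (y := 1 - t)).continuousAt.tendsto.comp (tends m f hf)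
  have h2 := (ENNReal.continuous_rpow_const (y := t)).continuousAt.tendsto.comp (tends m g hg)
  have hA' : (∫⁻ x, ENNReal.ofReal (f x)) ^ (1 - t) ≠ 0 := by
    intro h0
    rw [ENNReal.rpow_eq_zero_iff] at h0
    rcases h0 with ⟨h0, -⟩ | ⟨-, h0⟩
    · exact hA h0
    · linarith
  have hB' : (∫⁻ x, ENNReal.ofReal (g x)) ^ t ≠ 0 := by
    intro h0
    rw [ENNReal.rpow_eq_zero_iff] at h0
    rcases h0 with ⟨h0, -⟩ | ⟨-, h0⟩
    · exact hB h0
    · linarith
  have h3 := ENNReal.Tendsto.mul h1 (Or.inl hA') h2 (Or.inl hB')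
  exact le_of_tendsto' h3 (trunc m f g h t C ht0 ht1 hf hg hh hf1 hg1 hh1 hfg)

end Pool.Agent.Helper13.LW
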